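import Mathlib
import Pool.Agent.Results.MP_2c58a9_co.ManyPerms
import Pool.Agent.Y580.GP.Balls

set_option autoImplicit false

/-!
# Separated families of unit balls with many geometric permutations, in every dimension `d ≥ 3`

For every `d ≥ 3` and every `N` there is a `(d-2)`-separated family of `N + d` closed unit balls
in `ℝ^d` with at least `N` geometric permutations. Unit balls are `ρ`-stubby for every `ρ ≥ 1`, so
the constant `C(d, ρ)` of the question does not exist for any `d ≥ 3` and any `ρ ≥ 1`.

The definitions `E`, `Stubby`, `Separated`, `orient`, `orderType` and `geomPerms` are those of the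
starting result `ManyPerms` (imported).

In `ℝ³` put `N + 1` unit balls far away in the horizontal plane, at `R (cos 2mφ, sin 2mφ, 0)`,
and two unit balls with centres `(0, 0, ±(1 + δ))`. A plane `z = σ · p` meets the far away balls iff
`σ` lies in a slightly curved polygon, and it meets the two balls at the origin iff
`(1 + δ)² ≤ 1 + |σ|²`. The gap `δ` of order `R⁻²` is chosen such that the corners of the polygon lie
on the circle `|σ|² = (1 + δ)² - 1`. A line which meets both balls at the origin has slope at
least of order `√(2δ)`, and this is too steep for the far away balls. So the family is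
`1`-separated, and different corners induce different geometric permutations.

The step from `d` to `d + 1` places the balls over the balls in `ℝ^d` at heights `M, M², M³, …` with
a large `M`, the last ball being used twice. The hyperplanes `H × ℝ` over the transversals `H` are
transversals of the new family, the new family is separated by a compactness argument, and the
order type of `H` is contained in that of `H × ℝ`.
-/

open Pool.Agent.Results.MP_2c58a9_co.ManyPerms

namespace Pool.Agent.Results.MP_2c58a9_co.UnitBalls

/-- For all `d ≥ 3` and `N` there is a family of `N + d` closed unit balls in `ℝ^d` (compact convex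
sets which are `ρ`-stubby for every `ρ ≥ 1`) which is `(d-2)`-separated and has at least `N`
geometric permutations. -/
theorem result (d : ℕ) [NeZero d] (hd : 3 ≤ d) (N : ℕ) :
    ∃ a : Fin (N + d) → E d,
      (∀ i, IsCompact (Metric.closedBall (a i) 1) ∧ Convex ℝ (Metric.closedBall (a i) 1) ∧
        ∀ ρ : ℝ, 1 ≤ ρ → Stubby ρ (Metric.closedBall (a i) 1)) ∧
      Separated (fun i => Metric.closedBall (a i) 1) ∧
      (N : ℕ∞) ≤ (geomPerms (fun i => Metric.closedBall (a i) 1)).encard := by
  obtain ⟨e, rfl⟩ : ∃ e, d = e + 3 := ⟨d - 3, by omega⟩
  obtain ⟨a, h1, h2⟩ := Pool.Agent.Y580.GP.all_balls e N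
  exact ⟨a, fun i => ⟨isCompact_closedBall _ _, convex_closedBall _ _, fun ρ hρ =>
    ⟨⟨a i, Set.Subset.rfl⟩, ⟨a i, Metric.closedBall_subset_closedBall hρ⟩⟩⟩, h1, h2⟩

end Pool.Agent.Results.MP_2c58a9_co.UnitBalls
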